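import Mathlib
import Pool.Agent.V11117.MExp2

namespace Pool.Agent.Results.MP_3865e9_co.SixSetTransfer

open Finset Matrix Pool.Agent.V11117.MExp

/-- An unweighted oriented graph on `V`: a relation `arc a b` with no loops and at most one
direction for every pair. -/
structure OrientedGraph (V : Type) where
  arc : V → V → Prop
  asymm : ∀ a b, arc a b → ¬ arc b a

section defs
variable {V : Type} [Fintype V] [DecidableEq V] (X : OrientedGraph V)

open Classical in
/-- The skew adjacency matrix `S`. -/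
noncomputable def skew : Matrix V V ℂ :=
  Matrix.of fun a b => if X.arc a b then 1 else if X.arc b a then -1 else 0

/-- The transition matrix `U(t) = exp(i t M)` with `M = i S`. -/
noncomputable def U (t : ℝ) : Matrix V V ℂ :=
  NormedSpace.exp ((Complex.I * (t : ℂ)) • (Complex.I • skew X))

/-- Perfect state transfer from `a` to `b` at time `t`. -/
def PSTAt (a b : V) (t : ℝ) : Prop :=
  ∃ α : ℂ, U X t *ᵥ (Pi.single a 1) = α • (Pi.single b 1 : V → ℂ)

/-- Multiple state transfer on `S`: `|S| > 2`, and for all distinct `a, b ∈ S` there is perfect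
state transfer from `a` to `b` at some time. -/
def MultipleStateTransfer (S : Set V) : Prop :=
  2 < S.ncard ∧ ∀ a ∈ S, ∀ b ∈ S, a ≠ b → ∃ t : ℝ, PSTAt X a b t

end defs

/-- cells: centres `0..5`, the cell `6` of size `18`, three layers `7, 8, 9` of size `16` -/
def cell (a : Fin 72) : Fin 10 :=
  if h : a.val < 6 then ⟨a.val, by omega⟩ else if h : a.val < 24 then 6 else
    ⟨7 + (a.val - 24) / 16, by omega⟩

/-- arcs of the witness -/
def arcB (a b : Fin 72) : Bool :=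
  if a.val < 6 then
    if b.val < 6 then decide ((a.val + 1) % 6 = b.val) || decide ((a.val + 2) % 6 = b.val)
    else if b.val < 24 then decide (a.val % 2 = 0)
    else decide ((b.val - 24) / 16 = a.val % 3)
  else if a.val < 24 then decide (b.val < 6) && decide (b.val % 2 = 1)
  else
    if b.val < 6 then decide ((a.val - 24) / 16 = (b.val + 1) % 3)
    else if b.val < 24 then false
    else decide ((a.val - 24) / 16 = ((b.val - 24) / 16 + 1) % 3) &&
      decide (((b.val - 24) % 16 + 16 - (a.val - 24) % 16) % 16 < 4)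

/-- the integer skew adjacency matrix of the witness -/
def adjZ : Matrix (Fin 72) (Fin 72) ℤ :=
  Matrix.of fun a b => if arcB a b then 1 else if arcB b a then -1 else 0

lemma arcB_asymm : ∀ a b, arcB a b = true → ¬ arcB b a = true := by decide +kernel

/-- the witness -/
def X0 : OrientedGraph (Fin 72) where
  arc a b := arcB a b = true
  asymm := arcB_asymm

lemma skew_X0 : skew X0 = adjZ.map (Int.castRingHom ℂ) := by
  ext a b
  simp only [skew, Matrix.of_apply, X0, adjZ, Matrix.map_apply]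
  split_ifs <;> simp

def B : Matrix (Fin 10) (Fin 10) ℤ :=
  !![0, 1, 1, 0, -1, -1, 18, 16, -16, 0;
     -1, 0, 1, 1, 0, -1, -18, 0, 16, -16;
     -1, -1, 0, 1, 1, 0, 18, -16, 0, 16;
     0, -1, -1, 0, 1, 1, -18, 16, -16, 0;
     1, 0, -1, -1, 0, 1, 18, 0, 16, -16;
     1, 1, 0, -1, -1, 0, -18, -16, 0, 16;
     -1, 1, -1, 1, -1, 1, 0, 0, 0, 0;
     -1, 0, 1, -1, 0, 1, 0, 0, -4, 4;
     1, -1, 0, 1, -1, 0, 0, 4, 0, -4;
     0, 1, -1, 0, 1, -1, 0, -4, 4, 0]

lemma equitable : ∀ a k, ∑ b, (if cell b = k then adjZ a b else 0) = B (cell a) k := by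
  decide +kernel

section transfer

lemma s3 : (√3 : ℝ) ^ 2 = 3 := Real.sq_sqrt (by norm_num)

lemma s3c : ((√3 : ℝ) : ℂ) ^ 2 = 3 := by
  rw [← Complex.ofReal_pow, s3]; norm_num

lemma s3ne : ((√3 : ℝ) : ℂ) ≠ 0 := by
  intro h
  have := s3c
  rw [h] at this
  norm_num at this

/-- primitive sixth root of unity -/
noncomputable def e : ℂ := 1 / 2 + ((√3 : ℝ) : ℂ) / 2 * Complex.I

/-- `s = i √3` -/
noncomputable def s : ℂ := ((√3 : ℝ) : ℂ) * Complex.I

lemma s_eq : s = 2 * e - 1 := by unfold s e; ring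

lemma e_sq : e ^ 2 = e - 1 := by
  unfold e
  have := s3c
  have h2 : Complex.I ^ 2 = -1 := Complex.I_sq
  linear_combination (Complex.I ^ 2 / 4) * this + (3 / 4) * h2

lemma exp_e : Complex.exp ((Real.pi / 3 : ℝ) * Complex.I) = e := by
  rw [Complex.exp_mul_I, ← Complex.ofReal_cos, ← Complex.ofReal_sin, 
    Real.cos_pi_div_three, Real.sin_pi_div_three]
  unfold e
  push_cast
  ring

/-- the time -/
noncomputable def g : ℝ := Real.pi / (6 * √3)

lemma g_s : (g : ℂ) * (2 * s) = (Real.pi / 3 : ℝ) * Complex.I := by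
  unfold g s
  have h0 := s3ne
  push_cast
  field_simp
  norm_num

/-- vectors on the cells -/
noncomputable def w (z r k : ℂ) : Fin 10 → ℂ :=
  ![1, z, z ^ 2, z ^ 3, z ^ 4, z ^ 5, r, k, k * z, k * z ^ 2]

lemma U_w (z r k μ : ℂ) (h : (B.map (Int.castRingHom ℂ)) *ᵥ w z r k = μ • w z r k) :
    U X0 g *ᵥ (w z r k ∘ cell) = Complex.exp (-(g * μ)) • (w z r k ∘ cell) := by
  unfold U
  have e1 : (Complex.I * (g : ℂ)) • (Complex.I • skew X0) = (-(g : ℂ)) • skew X0 := by
    rw [smul_smul]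
    congr 1
    have h2 : Complex.I ^ 2 = -1 := Complex.I_sq
    linear_combination (g : ℂ) * h2
  rw [e1]
  apply exp_mulVec
  rw [← neg_mul]
  apply smul_mulVec_eig
  rw [skew_X0, quotient_mulVec adjZ B cell equitable, h]
  rfl

/-- one-line check of an eigenvector -/
lemma w_eig (z r k μ : ℂ)
    (h0 : z + z ^ 2 - z ^ 4 - z ^ 5 + 18 * r + 16 * k - 16 * k * z = μ)
    (h1 : -1 + z ^ 2 + z ^ 3 - z ^ 5 - 18 * r + 16 * k * z - 16 * k * z ^ 2 = μ * z)
    (h2 : -1 - z + z ^ 3 + z ^ 4 + 18 * r - 16 * k + 16 * k * z ^ 2 = μ * z ^ 2)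
    (h3 : -z - z ^ 2 + z ^ 4 + z ^ 5 - 18 * r + 16 * k - 16 * k * z = μ * z ^ 3)
    (h4 : 1 - z ^ 2 - z ^ 3 + z ^ 5 + 18 * r + 16 * k * z - 16 * k * z ^ 2 = μ * z ^ 4)
    (h5 : 1 + z - z ^ 3 - z ^ 4 - 18 * r - 16 * k + 16 * k * z ^ 2 = μ * z ^ 5)
    (h6 : -1 + z - z ^ 2 + z ^ 3 - z ^ 4 + z ^ 5 = μ * r)
    (h7 : -1 + z ^ 2 - z ^ 3 + z ^ 5 - 4 * k * z + 4 * k * z ^ 2 = μ * k)
    (h8 : 1 - z + z ^ 3 - z ^ 4 + 4 * k - 4 * k * z ^ 2 = μ * (k * z))
    (h9 : z - z ^ 2 + z ^ 4 - z ^ 5 - 4 * k + 4 * k * z = μ * (k * z ^ 2)) :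
    (B.map (Int.castRingHom ℂ)) *ᵥ w z r k = μ • w z r k := by
  funext i
  fin_cases i
  · simp [Matrix.mulVec, dotProduct, Fin.sum_univ_succ, B, w]
    linear_combination h0
  · simp [Matrix.mulVec, dotProduct, Fin.sum_univ_succ, B, w]
    linear_combination h1
  · simp [Matrix.mulVec, dotProduct, Fin.sum_univ_succ, B, w]
    linear_combination h2
  · simp [Matrix.mulVec, dotProduct, Fin.sum_univ_succ, B, w]
    linear_combination h3
  · simp [Matrix.mulVec, dotProduct, Fin.sum_univ_succ, B, w]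
    linear_combination h4
  · simp [Matrix.mulVec, dotProduct, Fin.sum_univ_succ, B, w]
    linear_combination h5
  · simp [Matrix.mulVec, dotProduct, Fin.sum_univ_succ, B, w]
    linear_combination h6
  · simp [Matrix.mulVec, dotProduct, Fin.sum_univ_succ, B, w]
    linear_combination h7
  · simp [Matrix.mulVec, dotProduct, Fin.sum_univ_succ, B, w]
    linear_combination h8
  · simp [Matrix.mulVec, dotProduct, Fin.sum_univ_succ, B, w]
    linear_combination h9

lemma e6 : e ^ 6 = 1 := by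
  have h := e_sq
  grind

lemma ene : e ≠ 0 := by
  intro h
  have := e6
  rw [h] at this
  norm_num at this

lemma exp_neg_mul (n : ℕ) : Complex.exp (-(g * (-(n * (2 * s))))) = e ^ n := by
  have h : -((g : ℂ) * (-(n * (2 * s)))) = n * ((Real.pi / 3 : ℝ) * Complex.I) := by
    rw [← g_s]; ring
  rw [h, Complex.exp_nat_mul, exp_e]

lemma exp_pos_mul (n : ℕ) : Complex.exp (-(g * (n * (2 * s)))) = e ^ (5 * n) := by
  have h : -((g : ℂ) * (n * (2 * s))) = -(n * ((Real.pi / 3 : ℝ) * Complex.I)) := by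
    rw [← g_s]; ring
  rw [h, Complex.exp_neg, Complex.exp_nat_mul, exp_e]
  apply inv_eq_of_mul_eq_one_right
  rw [← pow_add, show n + 5 * n = 6 * n by ring, pow_mul, e6, one_pow]

/-- Fourier vectors on the centres -/
noncomputable def F (z : ℂ) : Fin 72 → ℂ := w z 0 0 ∘ cell

/-- the two eigenvectors used for each root of unity -/
lemma U_F_of (z r1 k1 μ1 r2 k2 μ2 c1 c2 x : ℂ)
    (h1 : (B.map (Int.castRingHom ℂ)) *ᵥ w z r1 k1 = μ1 • w z r1 k1)
    (h2 : (B.map (Int.castRingHom ℂ)) *ᵥ w z r2 k2 = μ2 • w z r2 k2)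
    (hc : c1 + c2 = 1) (hr : c1 * r1 + c2 * r2 = 0) (hk : c1 * k1 + c2 * k2 = 0)
    (hx1 : Complex.exp (-(g * μ1)) = x) (hx2 : Complex.exp (-(g * μ2)) = x) :
    U X0 g *ᵥ F z = x • F z := by
  have hF : F z = c1 • (w z r1 k1 ∘ cell) + c2 • (w z r2 k2 ∘ cell) := by
    have : w z 0 0 = c1 • w z r1 k1 + c2 • w z r2 k2 := by
      funext i
      fin_cases i <;> simp [w] <;> grind
    unfold F
    rw [this]
    rfl
  rw [hF, Matrix.mulVec_add, Matrix.mulVec_smul, Matrix.mulVec_smul, U_w z r1 k1 μ1 h1,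
    U_w z r2 k2 μ2 h2, hx1, hx2, smul_add, smul_comm, smul_comm c2]

lemma U_F0 : U X0 g *ᵥ F 1 = (1 : ℂ) • F 1 := by
  have h : (B.map (Int.castRingHom ℂ)) *ᵥ w 1 0 0 = (0 : ℂ) • w 1 0 0 := by
    apply w_eig <;> norm_num
  have hx : Complex.exp (-(g * 0)) = 1 := by simp
  exact U_F_of 1 0 0 0 0 0 0 (1/2) (1/2) 1 h h (by norm_num) (by norm_num) (by norm_num) hx hx

lemma U_F1 : U X0 g *ᵥ F e = (e ^ 5 : ℂ) • F e := by
  have he := e_sq
  have hs := s_eq
  have h : (B.map (Int.castRingHom ℂ)) *ᵥ w e 0 0 = (((1 : ℕ) : ℂ) * (2 * s)) • w e 0 0 := by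
    apply w_eig <;> push_cast <;> grind
  have hx := exp_pos_mul 1
  exact U_F_of e 0 0 _ 0 0 _ (1/2) (1/2) _ h h (by norm_num) (by norm_num) (by norm_num) hx hx

lemma U_F5 : U X0 g *ᵥ F (e ^ 5) = (e ^ 25 : ℂ) • F (e ^ 5) := by
  have he := e_sq
  have hs := s_eq
  have h6 := e6
  have h3 : e ^ 3 = -1 := by grind
  have h5 : e ^ 5 = 1 - e := by grind
  have h : (B.map (Int.castRingHom ℂ)) *ᵥ w (e ^ 5) 0 0
      = (-(((1 : ℕ) : ℂ) * (2 * s))) • w (e ^ 5) 0 0 := by
    rw [h5]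
    apply w_eig <;> push_cast <;> grind
  have hx := exp_neg_mul 1
  have h25 : e ^ 1 = e ^ 25 := by
    rw [show 25 = 6 * 4 + 1 by norm_num, pow_add, pow_mul, h6]; ring
  rw [h25] at hx
  exact U_F_of (e ^ 5) 0 0 _ 0 0 _ (1/2) (1/2) _ h h (by norm_num) (by norm_num) (by norm_num) hx hx

lemma U_F3 : U X0 g *ᵥ F (e ^ 3) = (e ^ 15 : ℂ) • F (e ^ 3) := by
  have he := e_sq
  have hs := s_eq
  have h6 := e6
  have h3 : e ^ 3 = -1 := by grind
  have h1 : (B.map (Int.castRingHom ℂ)) *ᵥ w (e ^ 3) (s / 3) 0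
      = (((3 : ℕ) : ℂ) * (2 * s)) • w (e ^ 3) (s / 3) 0 := by
    rw [h3]
    apply w_eig <;> push_cast <;> grind
  have h2 : (B.map (Int.castRingHom ℂ)) *ᵥ w (e ^ 3) (-s / 3) 0
      = (-(((3 : ℕ) : ℂ) * (2 * s))) • w (e ^ 3) (-s / 3) 0 := by
    rw [h3]
    apply w_eig <;> push_cast <;> grind
  have hx1 := exp_pos_mul 3
  have hx2 := exp_neg_mul 3
  have h15 : e ^ 3 = e ^ (5 * 3) := by
    rw [show 5 * 3 = 6 * 2 + 3 by norm_num, pow_add, pow_mul, h6]; ring
  rw [h15] at hx2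
  exact U_F_of (e ^ 3) _ 0 _ _ 0 _ (1/2) (1/2) _ h1 h2 (by norm_num) (by ring) (by norm_num) hx1 hx2

lemma U_F2 : U X0 g *ᵥ F (e ^ 2) = (e ^ 10 : ℂ) • F (e ^ 2) := by
  have he := e_sq
  have hs := s_eq
  have h6 := e6
  have h1 : (B.map (Int.castRingHom ℂ)) *ᵥ w (e ^ 2) 0 ((1 + e) * s / 12)
      = (((2 : ℕ) : ℂ) * (2 * s)) • w (e ^ 2) 0 ((1 + e) * s / 12) := by
    rw [he]
    apply w_eig <;> push_cast <;> grind
  have h2 : (B.map (Int.castRingHom ℂ)) *ᵥ w (e ^ 2) 0 (-(1 + e) * s / 6)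
      = (-(((4 : ℕ) : ℂ) * (2 * s))) • w (e ^ 2) 0 (-(1 + e) * s / 6) := by
    rw [he]
    apply w_eig <;> push_cast <;> grind
  have hx1 := exp_pos_mul 2
  have hx2 := exp_neg_mul 4
  have h10 : e ^ 4 = e ^ (5 * 2) := by
    rw [show 5 * 2 = 6 * 1 + 4 by norm_num, pow_add, pow_mul, h6]; ring
  rw [h10] at hx2
  exact U_F_of (e ^ 2) 0 _ _ 0 _ _ (2/3) (1/3) _ h1 h2 (by norm_num) (by norm_num) (by ring) hx1 hx2

lemma U_F4 : U X0 g *ᵥ F (e ^ 4) = (e ^ 20 : ℂ) • F (e ^ 4) := by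
  have he := e_sq
  have hs := s_eq
  have h6 := e6
  have h4 : e ^ 4 = -e := by grind
  have h1 : (B.map (Int.castRingHom ℂ)) *ᵥ w (e ^ 4) 0 (-(2 - e) * s / 12)
      = (-(((2 : ℕ) : ℂ) * (2 * s))) • w (e ^ 4) 0 (-(2 - e) * s / 12) := by
    rw [h4]
    apply w_eig <;> push_cast <;> grind
  have h2 : (B.map (Int.castRingHom ℂ)) *ᵥ w (e ^ 4) 0 ((2 - e) * s / 6)
      = (((4 : ℕ) : ℂ) * (2 * s)) • w (e ^ 4) 0 ((2 - e) * s / 6) := by
    rw [h4]
    apply w_eig <;> push_cast <;> grind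
  have hx1 := exp_neg_mul 2
  have hx2 := exp_pos_mul 4
  have h20 : e ^ 2 = e ^ (5 * 4) := by
    rw [show 5 * 4 = 6 * 3 + 2 by norm_num, pow_add, pow_mul, h6]; ring
  rw [h20] at hx1
  exact U_F_of (e ^ 4) 0 _ _ 0 _ _ (2/3) (1/3) _ h1 h2 (by norm_num) (by norm_num) (by ring) hx1 hx2

lemma U_Fj (j : Fin 6) : U X0 g *ᵥ F (e ^ j.val) = (e ^ (5 * j.val) : ℂ) • F (e ^ j.val) := by
  fin_cases j
  · simpa using U_F0
  · simpa using U_F1
  · exact U_F2
  · exact U_F3
  · exact U_F4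
  · exact U_F5

/-- the centres -/
def ctr (k : Fin 6) : Fin 72 := ⟨k.val, by omega⟩

lemma sum_pow (n : ℕ) : ∑ j : Fin 6, (e ^ n) ^ j.val = if n % 6 = 0 then 6 else 0 := by
  have he := e_sq
  have h6 := e6
  have hn : e ^ n = e ^ (n % 6) := by
    conv_lhs => rw [← Nat.div_add_mod n 6, pow_add, pow_mul, h6, one_pow, one_mul]
  rw [hn]
  have hlt : n % 6 < 6 := Nat.mod_lt _ (by norm_num)
  simp only [Fin.sum_univ_six]
  interval_cases (n % 6)
  · norm_num
  all_goals
    simp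
    grind

lemma single_eq (k : Fin 6) : (Pi.single (ctr k) 1 : Fin 72 → ℂ)
    = (1 / 6 : ℂ) • ∑ j : Fin 6, (e ^ ((6 - k.val) * j.val)) • F (e ^ j.val) := by
  funext a
  rw [Pi.smul_apply, Finset.sum_apply, Pi.single_apply]
  simp only [Pi.smul_apply, F, Function.comp_apply, smul_eq_mul]
  by_cases ha : a.val < 6
  · have hc : cell a = ⟨a.val, by omega⟩ := by
      unfold cell
      rw [dif_pos ha]
    have hw : ∀ z : ℂ, w z 0 0 (cell a) = z ^ a.val := by
      intro z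
      rw [hc]
      obtain ⟨v, hv⟩ := a
      simp only at ha ⊢
      interval_cases v <;> simp [w]
    simp only [hw]
    have h1 : ∀ j : Fin 6, e ^ ((6 - k.val) * j.val) * (e ^ j.val) ^ a.val
        = (e ^ (6 - k.val + a.val)) ^ j.val := by
      intro j
      rw [← pow_mul, ← pow_mul, ← pow_add]
      congr 1
      ring
    simp only [h1, sum_pow]
    have hk := k.isLt
    by_cases hak : a = ctr k
    · have : a.val = k.val := by rw [hak]; rfl
      rw [if_pos hak, if_pos (by omega)]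
      norm_num
    · have : a.val ≠ k.val := fun h => hak (Fin.ext h)
      rw [if_neg hak, if_neg (by omega)]
      norm_num
  · have hc : 6 ≤ (cell a).val := by
      unfold cell
      rw [dif_neg ha]
      split_ifs
      · exact le_rfl
      · simp only
        omega
    have hw : ∀ z : ℂ, w z 0 0 (cell a) = 0 := by
      intro z
      obtain ⟨c, hc'⟩ : ∃ c, c = cell a := ⟨_, rfl⟩
      rw [← hc'] at hc ⊢
      fin_cases c <;> simp [w] at hc ⊢
    have hne : a ≠ ctr k := by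
      intro h
      apply ha
      rw [h]
      exact k.isLt
    rw [if_neg hne]
    simp [hw]

lemma step (k : Fin 6) : U X0 g *ᵥ (Pi.single (ctr k) 1)
    = (Pi.single (ctr (k + 1)) 1 : Fin 72 → ℂ) := by
  have h6 := e6
  rw [single_eq k, single_eq (k + 1), Matrix.mulVec_smul, Matrix.mulVec_sum]
  congr 1
  refine Finset.sum_congr rfl fun j _ => ?_
  rw [Matrix.mulVec_smul, U_Fj, smul_smul]
  congr 1
  rw [← pow_add]
  have hmod : ∀ a b : ℕ, a % 6 = b % 6 → e ^ a = e ^ b := by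
    intro a b h
    rw [← Nat.div_add_mod a 6, ← Nat.div_add_mod b 6, pow_add, pow_add, pow_mul, pow_mul, h6, h]
    simp
  apply hmod
  fin_cases k <;> fin_cases j <;> rfl

lemma steps (m : ℕ) (k : Fin 6) : U X0 (m * g) *ᵥ (Pi.single (ctr k) 1)
    = (Pi.single (ctr (k + (Fin.ofNat 6 m))) 1 : Fin 72 → ℂ) := by
  induction m with
  | zero =>
    have : U X0 ((0 : ℕ) * g) = 1 := by
      unfold U
      simp
    rw [this, Matrix.one_mulVec]
    congr 2
    fin_cases k <;> rfl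
  | succ m ih =>
    have h1 : U X0 ((m + 1 : ℕ) * g) = U X0 g * U X0 (m * g) := by
      unfold U
      rw [← exp_add_smul]
      congr 2
      push_cast
      ring
    rw [h1, ← Matrix.mulVec_mulVec, ih, step]
    congr 2
    apply Fin.ext
    simp only [Fin.val_add, Fin.ofNat]
    rcases k with ⟨k, hk⟩
    simp
    omega

/-- the set of the six centres -/
def S0 : Set (Fin 72) := {a | a.val < 6}

lemma mst : MultipleStateTransfer X0 S0 := by
  constructor
  · have : S0 = ((univ.filter (fun a : Fin 72 => a.val < 6) : Finset (Fin 72)) : Set (Fin 72)) := by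
      ext a; simp [S0]
    rw [this, Set.ncard_coe_finset]
    decide +kernel
  · intro a ha b hb hab
    have ha' : a = ctr ⟨a.val, ha⟩ := rfl
    have hb' : b = ctr ⟨b.val, hb⟩ := rfl
    refine ⟨((b.val + 6 - a.val : ℕ) : ℝ) * g, 1, ?_⟩
    rw [ha', steps, one_smul]
    congr 2
    apply Fin.ext
    have h1 : a.val < 6 := ha
    have h2 : b.val < 6 := hb
    simp only [Fin.val_add, Fin.ofNat, ctr]
    omega

end transfer

/-- **Answer to Q1 (yes)**: an unweighted oriented graph with multiple state transfer on a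
set of six vertices. -/
theorem result : ∃ (V : Type) (_ : Fintype V) (_ : DecidableEq V) (X : OrientedGraph V)
    (S : Set V), S.ncard = 6 ∧ MultipleStateTransfer X S := by
  refine ⟨Fin 72, inferInstance, inferInstance, X0, S0, ?_, mst⟩
  have : S0 = ((univ.filter (fun a : Fin 72 => a.val < 6) : Finset (Fin 72)) : Set (Fin 72)) := by
    ext a; simp [S0]
  rw [this, Set.ncard_coe_finset]
  decide +kernel

end Pool.Agent.Results.MP_3865e9_co.SixSetTransfer
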